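import Pool.Agent.H53Dom.A

set_option autoImplicit false

/-!
# Maker-Breaker domination time versus size in `G(n,p)`: every bias

For every bias `b ≥ 1` the statement of Q1 fails, for all `p` with `1 - 1 / (b + 1)² ≤ p < 1`.
-/

open MeasureTheory Filter Topology unitInterval
open scoped SimpleGraph

namespace Pool.Agent.Results.MP_dfc2f8_pr.EveryBias

variable {V : Type*}

/-- `A` is a dominating set of `G`. -/
def Dom (G : SimpleGraph V) (A : Finset V) : Prop := ∀ v ∉ A, ∃ u ∈ A, G.Adj v u

/-- The first player, who is to move and has claimed `D`, while the second player has claimed `S`,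
can force within `t` further moves of hers that the set of her vertices satisfies `T` at some point.
She claims exactly one unclaimed vertex per move, the second player at most `b`. -/
def Forces [DecidableEq V] (T : Finset V → Prop) (b : ℕ) : ℕ → Finset V → Finset V → Prop
  | 0, D, _ => T D
  | t + 1, D, S => T D ∨ ∃ x, x ∉ D ∪ S ∧ (T (insert x D) ∨
      ∀ Z : Finset V, Z.card ≤ b → Disjoint Z (insert x D ∪ S) →
        Forces T b t (insert x D) (S ∪ Z))

/-- `γ_MB(G, b)`: the least number of rounds within which Dominator (who moves first and claims one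
vertex per move, while Staller claims at most `b`) can force that her vertices contain a dominating
set; `⊤` if there is none. -/
noncomputable def timeMB [DecidableEq V] (G : SimpleGraph V) (b : ℕ) : ℕ∞ :=
  sInf {k : ℕ∞ | ∃ t : ℕ, k = t ∧ Forces (fun D => ∃ A ⊆ D, Dom G A) b t ∅ ∅}

/-- `s_MB(G, b)`: the least `s` such that Dominator can force, in some number of rounds, that her
vertices contain a dominating set of size at most `s`; `⊤` if there is none. -/
noncomputable def sizeMB [DecidableEq V] (G : SimpleGraph V) (b : ℕ) : ℕ∞ :=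
  sInf {k : ℕ∞ | ∃ s : ℕ, k = s ∧
    ∃ t : ℕ, Forces (fun D => ∃ A ⊆ D, Dom G A ∧ A.card ≤ s) b t ∅ ∅}

theorem forces_iff [DecidableEq V] (T : Finset V → Prop) (b : ℕ) :
    ∀ (t : ℕ) (D S : Finset V), Forces T b t D S ↔ Pool.Agent.V11328.DG.Forces T b t D S := by
  intro t
  induction t with
  | zero => exact fun D S => Iff.rfl
  | succ t ih =>
    intro D S
    rw [Forces, Pool.Agent.V11328.DG.Forces]
    simp only [ih]

theorem time_eq [DecidableEq V] (G : SimpleGraph V) (b : ℕ) :
    timeMB G b = Pool.Agent.V11328.DG.timeMB G b := by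
  unfold timeMB Pool.Agent.V11328.DG.timeMB
  simp only [forces_iff]
  rfl

theorem size_eq [DecidableEq V] (G : SimpleGraph V) (b : ℕ) :
    sizeMB G b = Pool.Agent.V11328.DG.sizeMB G b := by
  unfold sizeMB Pool.Agent.V11328.DG.sizeMB
  simp only [forces_iff]
  rfl

/-- Let `b ≥ 1` and `1 - 1 / (b + 1)² ≤ p < 1`. For infinitely many `n`, with probability at least
`1/36`, the random graph `G ∼ G(n,p)` satisfies `s_MB(G, b) < γ_MB(G, b) `. So the probability that
`γ_MB(G, b) = s_MB(G, b)` does not tend to `1`. -/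
theorem result (b : ℕ) (hb : 1 ≤ b) (p : I) (hp0 : 1 - 1 / ((b : ℝ) + 1) ^ 2 ≤ (p : ℝ))
    (hp1 : (p : ℝ) < 1) :
    (∃ᶠ n : ℕ in atTop, 1 / 36 ≤ (G(Fin n, p)).real {G | sizeMB G b < timeMB G b}) ∧
    ¬ Tendsto (fun n : ℕ => (G(Fin n, p)).real {G | timeMB G b = sizeMB G b}) atTop (𝓝 1) := by
  have hp : (1 - (p : ℝ)) * ((b : ℝ) + 1) ^ 2 ≤ 1 := by
    have h1 : (0 : ℝ) < ((b : ℝ) + 1) ^ 2 := by positivity
    have h2 : 1 - (p : ℝ) ≤ 1 / ((b : ℝ) + 1) ^ 2 := by linarith
    rwa [le_div_iff₀ h1] at h2
  have hfreq : ∃ᶠ n : ℕ in atTop, 1 / 36 ≤ (G(Fin n, p)).real {G | sizeMB G b < timeMB G b} := by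
    rw [frequently_atTop]
    intro N
    obtain ⟨R, hR⟩ := eventually_atTop.1 (Pool.Agent.H53Dom.time_ne_size b hb p hp hp1)
    obtain ⟨n, hn1, hn2⟩ := hR (max R N) (le_max_left _ _)
    have hN : N ≤ max R N := le_max_right _ _
    refine ⟨n, by omega, hn2.trans (measureReal_mono (fun G hG => ?_))⟩
    show sizeMB G b < timeMB G b
    rw [time_eq, size_eq]
    exact lt_of_le_of_lt hG.1 hG.2
  refine ⟨hfreq, fun hlim => ?_⟩
  have h1 := hlim.eventually_const_lt (show (35 / 36 : ℝ) < 1 by norm_num)
  obtain ⟨n, h2, h3⟩ := (hfreq.and_eventually h1).exists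
  set A := {G : SimpleGraph (Fin n) | sizeMB G b < timeMB G b} with hA
  set B := {G : SimpleGraph (Fin n) | timeMB G b = sizeMB G b} with hB
  have hdis : Disjoint A B := by
    rw [Set.disjoint_left]
    intro G h4 h5
    have h4' : sizeMB G b < timeMB G b := h4
    exact h4'.ne' h5
  have hmeas : MeasurableSet B := Set.Finite.measurableSet (Set.toFinite _)
  have h4 := measureReal_union (μ := G(Fin n, p)) hdis hmeas
  have h5 : (G(Fin n, p)).real (A ∪ B) ≤ 1 := measureReal_le_one
  linarith

end Pool.Agent.Results.MP_dfc2f8_pr.EveryBias
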